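import Pool.Agent.W184.NV.Defs

set_option autoImplicit false

/-!
Anticoncentration by four moments (helper721).
-/

namespace Pool.Agent.W721.NV

open MeasureTheory Filter Topology ProbabilityTheory
open Pool.Agent.W184.NV

lemma poly_neg {u : ℝ} (hu : 0 ≤ u) : 0 ≤ u ^ 4 / 4 - u ^ 2 + 4 / 5 * u + 1 / 8 := by
  nlinarith [mul_nonneg hu (sq_nonneg (u - 23 / 20)), sq_nonneg (u ^ 2 - 23 / 20 * u),
    sq_nonneg (u - 23 / 20), sq_nonneg (u ^ 2 - 23 / 20), mul_nonneg hu (sq_nonneg (u - 1)),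
    sq_nonneg (u ^ 2 - u), sq_nonneg u]

lemma poly_pos (y : ℝ) : 0 ≤ y ^ 4 / 4 - y ^ 2 - 4 / 5 * y + 21 / 8 := by
  nlinarith [sq_nonneg (y ^ 2 / 2 - 5 / 4), sq_nonneg (y - 8 / 5)]

/-- the test function -/
lemma test_le (y : ℝ) : -(1 / 8) + 4 / 5 * y + y ^ 2 - y ^ 4 / 4 ≤
    5 / 2 * (Set.Ici (1 / 8 : ℝ)).indicator (fun _ => (1 : ℝ)) y := by
  by_cases h : (1 / 8 : ℝ) ≤ y
  · rw [Set.indicator_of_mem (Set.mem_Ici.2 h)]
    have := poly_pos y
    linarith
  · rw [Set.indicator_of_notMem (fun h' => h (Set.mem_Ici.1 h'))]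
    rw [not_le] at h
    rcases le_or_gt 0 y with h0 | h0
    · have h1 : y ^ 2 ≤ 1 / 8 * y := by nlinarith
      have h2 : 0 ≤ y ^ 4 := by positivity
      nlinarith
    · have h1 := poly_neg (u := -y) (by linarith)
      have h2 : (-y) ^ 4 = y ^ 4 := by ring
      have h3 : (-y) ^ 2 = y ^ 2 := by ring
      rw [h2, h3] at h1
      linarith

theorem anti : S_Anti := by
  intro Ω _ Q hQ ι X hind hmeas hbd hmean s hv h4
  classical
  choose B hB using hbd
  set S : Finset ι → Ω → ℝ := fun s ω => ∑ i ∈ s, X i ω with hS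
  have hSm : ∀ s, Measurable (S s) := fun s => Finset.measurable_fun_sum s fun i _ => hmeas i
  have hSb : ∀ s, ∃ C : ℝ, ∀ ω, |S s ω| ≤ C := by
    intro s
    refine ⟨∑ i ∈ s, B i, fun ω => ?_⟩
    exact (Finset.abs_sum_le_sum_abs _ _).trans (Finset.sum_le_sum fun i _ => hB i ω)
  -- integrability of powers
  have hint : ∀ (f : Ω → ℝ), Measurable f → (∃ C : ℝ, ∀ ω, |f ω| ≤ C) → Integrable f Q := by
    intro f hf ⟨C, hC⟩
    exact Integrable.of_bound hf.aestronglyMeasurable C (Eventually.of_forall fun ω => hC ω)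
  have hpow : ∀ (f : Ω → ℝ) (k : ℕ), (∃ C : ℝ, ∀ ω, |f ω| ≤ C) →
      ∃ C : ℝ, ∀ ω, |f ω ^ k| ≤ C := by
    intro f k ⟨C, hC⟩
    refine ⟨C ^ k, fun ω => ?_⟩
    rw [abs_pow]
    exact pow_le_pow_left₀ (abs_nonneg _) (hC ω) k
  have hSi : ∀ s k, Integrable (fun ω => S s ω ^ k) Q := fun s k =>
    hint _ ((hSm s).pow_const k) (hpow _ k (hSb s))
  have hXi : ∀ i k, Integrable (fun ω => X i ω ^ k) Q := fun i k =>
    hint _ ((hmeas i).pow_const k) (hpow _ k ⟨B i, hB i⟩)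
  -- the moments
  have hmom : ∀ s : Finset ι, ∫ ω, S s ω ∂Q = 0 ∧
      ∫ ω, S s ω ^ 2 ∂Q = ∑ i ∈ s, ∫ ω, X i ω ^ 2 ∂Q ∧
      ∫ ω, S s ω ^ 4 ∂Q ≤ 3 * (∑ i ∈ s, ∫ ω, X i ω ^ 2 ∂Q) ^ 2 + ∑ i ∈ s, ∫ ω, X i ω ^ 4 ∂Q := by
    intro s
    induction s using Finset.induction_on with
    | empty => simp [hS]
    | insert i s his ih =>
      obtain ⟨ih1, ih2, ih3⟩ := ih
      have hSS : ∀ ω, S (insert i s) ω = S s ω + X i ω := by
        intro ω
        simp only [hS]
        rw [Finset.sum_insert his, add_comm]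
      have hI : IndepFun (S s) (X i) Q := by
        have h := hind.indepFun_finsetSum_of_notMem hmeas his
        have e : (∑ j ∈ s, X j) = S s := by
          funext ω
          simp [hS]
        rw [e] at h
        exact h
      have hprod : ∀ a b : ℕ, ∫ ω, S s ω ^ a * X i ω ^ b ∂Q =
          (∫ ω, S s ω ^ a ∂Q) * ∫ ω, X i ω ^ b ∂Q := by
        intro a b
        have h := hI.comp (φ := fun x : ℝ => x ^ a) (ψ := fun x : ℝ => x ^ b)
          (measurable_id.pow_const a) (measurable_id.pow_const b)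
        exact h.integral_fun_mul_eq_mul_integral (hSi s a).aestronglyMeasurable
          (hXi i b).aestronglyMeasurable
      have hprodi : ∀ a b : ℕ, Integrable (fun ω => S s ω ^ a * X i ω ^ b) Q := by
        intro a b
        apply hint _ (((hSm s).pow_const a).mul ((hmeas i).pow_const b))
        obtain ⟨C, hC⟩ := hpow _ a (hSb s)
        obtain ⟨D, hD⟩ := hpow _ b ⟨B i, hB i⟩
        refine ⟨C * D, fun ω => ?_⟩
        change |S s ω ^ a * X i ω ^ b| ≤ _
        rw [abs_mul]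
        exact mul_le_mul (hC ω) (hD ω) (abs_nonneg _) ((abs_nonneg _).trans (hC ω))
      refine ⟨?_, ?_, ?_⟩
      · simp only [hSS]
        have h1 := hSi s 1
        have h2 := hXi i 1
        simp only [pow_one] at h1 h2
        rw [integral_add h1 h2, ih1, hmean, add_zero]
      · have h1 : ∀ ω, S (insert i s) ω ^ 2 = S s ω ^ 2 + 2 * (S s ω ^ 1 * X i ω ^ 1) +
            X i ω ^ 2 := by
          intro ω; rw [hSS]; ring
        simp only [h1]
        have e12 : Integrable (fun ω => S s ω ^ 2 + 2 * (S s ω ^ 1 * X i ω ^ 1)) Q :=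
          (hSi s 2).add ((hprodi 1 1).const_mul 2)
        rw [integral_add e12 (hXi i 2),
          integral_add (hSi s 2) ((hprodi 1 1).const_mul 2), integral_const_mul, hprod,
          Finset.sum_insert his, ih2]
        simp only [pow_one]
        rw [ih1, hmean]
        ring
      · have h1 : ∀ ω, S (insert i s) ω ^ 4 = S s ω ^ 4 + 4 * (S s ω ^ 3 * X i ω ^ 1) +
            6 * (S s ω ^ 2 * X i ω ^ 2) + 4 * (S s ω ^ 1 * X i ω ^ 3) + X i ω ^ 4 := by
          intro ω; rw [hSS]; ring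
        simp only [h1]
        have e1 := hSi s 4
        have e2 := (hprodi 3 1).const_mul 4
        have e3 := (hprodi 2 2).const_mul 6
        have e4 := (hprodi 1 3).const_mul 4
        have e5 := hXi i 4
        have f2 : Integrable (fun ω => S s ω ^ 4 + 4 * (S s ω ^ 3 * X i ω ^ 1)) Q := e1.add e2
        have f3 : Integrable (fun ω => S s ω ^ 4 + 4 * (S s ω ^ 3 * X i ω ^ 1) +
            6 * (S s ω ^ 2 * X i ω ^ 2)) Q := f2.add e3
        have f4 : Integrable (fun ω => S s ω ^ 4 + 4 * (S s ω ^ 3 * X i ω ^ 1) +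
            6 * (S s ω ^ 2 * X i ω ^ 2) + 4 * (S s ω ^ 1 * X i ω ^ 3)) Q := f3.add e4
        rw [integral_add f4 e5, integral_add f3 e4,
          integral_add f2 e3, integral_add e1 e2, integral_const_mul, integral_const_mul,
          integral_const_mul, hprod, hprod, hprod, Finset.sum_insert his, Finset.sum_insert his,
          ih2]
        simp only [pow_one]
        rw [ih1, hmean]
        have h2 : 0 ≤ ∫ ω, X i ω ^ 2 ∂Q := integral_nonneg fun ω => sq_nonneg _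
        have h3 : 0 ≤ (∫ ω, X i ω ^ 2 ∂Q) ^ 2 := sq_nonneg _
        nlinarith
  obtain ⟨m1, m2, m4⟩ := hmom s
  set v : ℝ := ∑ i ∈ s, ∫ ω, X i ω ^ 2 ∂Q with hvdef
  have hm4 : ∫ ω, S s ω ^ 4 ∂Q ≤ 13 / 4 * v ^ 2 := by linarith
  set r : ℝ := √v with hr
  have hr0 : 0 < r := Real.sqrt_pos.2 hv
  have hr2 : r ^ 2 = v := Real.sq_sqrt hv.le
  have hr4 : r ^ 4 = v ^ 2 := by rw [← hr2]; ring
  -- the test
  have hset : {ω | 1 / 8 * r ≤ ∑ i ∈ s, X i ω} = (fun ω => S s ω / r) ⁻¹' Set.Ici (1 / 8) := by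
    ext ω
    simp only [Set.mem_preimage, Set.mem_Ici, Set.mem_ofPred_eq]
    rw [le_div_iff₀ hr0]
  have hmE : MeasurableSet ((fun ω => S s ω / r) ⁻¹' Set.Ici (1 / 8)) :=
    ((hSm s).div_const r) measurableSet_Ici
  have hI1 : Integrable (fun ω => -(1 / 8) + 4 / 5 * (S s ω / r) + (S s ω / r) ^ 2 -
      (S s ω / r) ^ 4 / 4) Q := by
    have e1 := (hSi s 1).const_mul (4 / 5 / r)
    have e2 := (hSi s 2).const_mul (1 / r ^ 2)
    have e4 := (hSi s 4).const_mul (1 / (4 * r ^ 4))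
    refine ((((integrable_const (-(1 / 8) : ℝ)).add e1).add e2).sub e4).congr
      (Eventually.of_forall fun ω => ?_)
    simp only [Pi.add_apply, Pi.sub_apply]
    field_simp
  have hI2 : Integrable (fun ω => 5 / 2 *
      (Set.Ici (1 / 8 : ℝ)).indicator (fun _ => (1 : ℝ)) (S s ω / r)) Q := by
    apply Integrable.const_mul
    have : (fun ω => (Set.Ici (1 / 8 : ℝ)).indicator (fun _ => (1 : ℝ)) (S s ω / r)) =
        ((fun ω => S s ω / r) ⁻¹' Set.Ici (1 / 8)).indicator (fun _ => (1 : ℝ)) := by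
      funext ω; rfl
    rw [this]
    exact (integrable_const (1 : ℝ)).indicator hmE
  have hle := integral_mono hI1 hI2 fun ω => test_le (S s ω / r)
  have hR : ∫ ω, 5 / 2 * (Set.Ici (1 / 8 : ℝ)).indicator (fun _ => (1 : ℝ)) (S s ω / r) ∂Q =
      5 / 2 * Q.real ((fun ω => S s ω / r) ⁻¹' Set.Ici (1 / 8)) := by
    rw [integral_const_mul]
    congr 1
    have : (fun ω => (Set.Ici (1 / 8 : ℝ)).indicator (fun _ => (1 : ℝ)) (S s ω / r)) =
        ((fun ω => S s ω / r) ⁻¹' Set.Ici (1 / 8)).indicator (fun _ => (1 : ℝ)) := by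
      funext ω; rfl
    rw [this, integral_indicator hmE, setIntegral_const, smul_eq_mul, mul_one]
  have hL : ∫ ω, (-(1 / 8) + 4 / 5 * (S s ω / r) + (S s ω / r) ^ 2 - (S s ω / r) ^ 4 / 4) ∂Q =
      -(1 / 8) + 4 / 5 / r * ∫ ω, S s ω ^ 1 ∂Q + 1 / r ^ 2 * ∫ ω, S s ω ^ 2 ∂Q -
        1 / (4 * r ^ 4) * ∫ ω, S s ω ^ 4 ∂Q := by
    have e0 : Integrable (fun _ : Ω => (-(1 / 8) : ℝ)) Q := integrable_const _
    have e1 := (hSi s 1).const_mul (4 / 5 / r)
    have e2 := (hSi s 2).const_mul (1 / r ^ 2)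
    have e4 := (hSi s 4).const_mul (1 / (4 * r ^ 4))
    rw [← integral_const_mul, ← integral_const_mul, ← integral_const_mul]
    have h0 : ∫ _ : Ω, (-(1 / 8) : ℝ) ∂Q = -(1 / 8) := by
      rw [integral_const]; simp
    conv_rhs => rw [← h0]
    have f1 : Integrable (fun ω => -(1 / 8) + 4 / 5 / r * S s ω ^ 1) Q := e0.add e1
    have f2 : Integrable (fun ω => -(1 / 8) + 4 / 5 / r * S s ω ^ 1 + 1 / r ^ 2 * S s ω ^ 2) Q :=
      f1.add e2
    rw [← integral_add e0 e1, ← integral_add f1 e2, ← integral_sub f2 e4]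
    apply integral_congr_ae
    filter_upwards with ω
    field_simp
  rw [hL, hR, m2, hr2, hr4] at hle
  simp only [pow_one] at hle
  rw [m1] at hle
  have h5 : 1 / v * v = 1 := by field_simp
  have h6 : 1 / (4 * v ^ 2) * ∫ ω, S s ω ^ 4 ∂Q ≤ 13 / 16 := by
    calc 1 / (4 * v ^ 2) * ∫ ω, S s ω ^ 4 ∂Q ≤ 1 / (4 * v ^ 2) * (13 / 4 * v ^ 2) :=
          mul_le_mul_of_nonneg_left hm4 (by positivity)
      _ = 13 / 16 := by field_simp; norm_num
  rw [hset]
  rw [h5] at hle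
  linarith

end Pool.Agent.W721.NV
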